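import Mathlib
import Pool.Agent.Run7.h783.OneSeq.Main
import Pool.Agent.Run7.h783.OneSeq.Seqn

set_option autoImplicit false

/-!
One sequence through all multiples of `N`, `2 N` or `3 N`, for an abstract translation invariant property of finite
sets of integers with an infinite clique of factorials and a coloured theorem above one quarter.
-/

namespace Pool.Agent.Run7.h783.GE

open Finset
open Pool.Agent.Run7.h783.OneSeq

/-- the coloured theorem for the property `P`: a set which hits many classes, all of whose convex subsets are good -/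
def ColX (q : ℕ) (P : Finset ℤ → Prop) : Prop := ∃ c₀ : ℝ, 0 < c₀ ∧ c₀ < 1 ∧ ∀ T M : ℕ, 1 ≤ T →
  (4 - c₀) * M < T → ∃ K : ℕ, 1 ≤ K ∧ ∀ x : Fin T → Fin K → ℤ,
    Function.Injective (fun y : Fin T × Fin K => x y.1 y.2) →
    (∀ p : ℕ, p.Prime → p ≤ T * K → ¬ (p : ℤ) ∣ q → ∃ c : ℤ, ∀ g i, ¬ (p : ℤ) ∣ x g i - c) →
    ∃ X : Finset ℤ, X ⊆ univ.image (fun y : Fin T × Fin K => x y.1 y.2) ∧
      M + 1 ≤ (univ.filter (fun g : Fin T => ∃ i, x g i ∈ X)).card ∧
      ∀ s : Finset ℤ, s.Nonempty → Convex X s → P s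

theorem four {P : Finset ℤ → Prop} (q : ℕ) (hXP : ColX q P) (hq2 : 2 ∣ q) (b : ℕ → ℕ)
    (hb : StrictMono b) (z : Fin 4 → ℤ) (c : ℤ) (hc : ∀ g, ¬ (3 : ℤ) ∣ z g - c) (k : ℕ) (F : Finset ℤ) :
    ∃ i j : Fin 4, i < j ∧ ∃ l, Seg P k {x | ∃ g, i ≤ g ∧ g ≤ j ∧ x ∈ tr (BB b) (z g)}
      (tr (BB b) (z i)) (tr (BB b) (z j)) F l := by
  classical
  obtain ⟨c₀, hc₀, hc₁, hQ⟩ := hXP
  obtain ⟨m, hm1, hm⟩ : ∃ m : ℕ, 1 ≤ m ∧ (4 - c₀) * ((m + 3 * k : ℕ) : ℝ) < ((4 * m : ℕ) : ℝ) := by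
    obtain ⟨m, hm⟩ := exists_nat_gt ((4 - c₀) * (3 * k) / c₀ + 1)
    have h0 : 0 ≤ (4 - c₀) * (3 * k) / c₀ := by
      have : 0 ≤ 4 - c₀ := by linarith
      positivity
    refine ⟨m, ?_, ?_⟩
    · have : (1 : ℝ) < m := by linarith
      exact_mod_cast this.le
    · have h1 : (4 - c₀) * (3 * k) / c₀ < m := by linarith
      rw [div_lt_iff₀ hc₀] at h1
      push_cast
      linarith
  obtain ⟨K, hK, hQ'⟩ := hQ (4 * m) (m + 3 * k) (by omega) hm
  -- bounds
  obtain ⟨Z, hZ⟩ : ∃ Z : ℕ, ∀ g, |z g| ≤ Z := by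
    refine ⟨univ.sup fun g => (z g).natAbs, fun g => ?_⟩
    rw [Int.abs_eq_natAbs]
    exact_mod_cast le_sup (f := fun g => (z g).natAbs) (mem_univ g)
  obtain ⟨FB, hFB⟩ : ∃ FB : ℕ, ∀ f ∈ F, |f| ≤ FB := by
    refine ⟨F.sup fun f => f.natAbs, fun f hf => ?_⟩
    rw [Int.abs_eq_natAbs]
    exact_mod_cast le_sup (f := fun f : ℤ => f.natAbs) hf
  set n₀ : ℕ := 4 * m * K + 2 * Z + FB + 1 with hn₀
  set β : ℕ → ℤ := fun n => (((b n + 3).factorial : ℕ) : ℤ) with hβ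
  set ix : Fin (4 * m) → Fin K → ℕ := fun g i => n₀ + g.1 * K + i.1 with hix
  set x : Fin (4 * m) → Fin K → ℤ := fun g i => β (ix g i) + z (lt4 m hm1 g) with hx
  have hlt : ∀ g i g' i', ix g i < ix g' i' → x g i < x g' i' := by
    intro g i g' i' h
    have h1 := fact_gap b hb h
    have h2 := abs_le.1 (hZ (lt4 m hm1 g))
    have h3 := abs_le.1 (hZ (lt4 m hm1 g'))
    have h4 : (2 * Z : ℤ) < ix g i := by
      have : 2 * Z < ix g i := by simp only [hix]; omega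
      exact_mod_cast this
    simp only [hx, hβ]
    linarith [h2.2, h3.1]
  have hixinj : ∀ g i g' i', ix g i = ix g' i' → g = g' ∧ i = i' := by
    intro g i g' i' h
    have hi := i.2
    have hi' := i'.2
    have h1 : g.1 * K + i.1 = g'.1 * K + i'.1 := by simp only [hix] at h; omega
    have hg : g.1 = g'.1 := by
      have e1 : (g.1 * K + i.1) / K = g.1 := by
        rw [mul_comm, Nat.mul_add_div (by omega), Nat.div_eq_of_lt hi, add_zero]
      have e2 : (g'.1 * K + i'.1) / K = g'.1 := by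
        rw [mul_comm, Nat.mul_add_div (by omega), Nat.div_eq_of_lt hi', add_zero]
      rw [← e1, ← e2, h1]
    refine ⟨Fin.ext hg, Fin.ext ?_⟩
    rw [hg] at h1
    omega
  have hle : ∀ g i g' i', x g i ≤ x g' i' → ix g i ≤ ix g' i' := by
    intro g i g' i' h
    by_contra hcon
    exact absurd h (not_le.2 (hlt _ _ _ _ (not_le.1 hcon)))
  have hinj : Function.Injective (fun y : Fin (4 * m) × Fin K => x y.1 y.2) := by
    rintro ⟨g, i⟩ ⟨g', i'⟩ h
    have h1 : ix g i = ix g' i' := le_antisymm (hle _ _ _ _ (le_of_eq h)) (hle _ _ _ _ (le_of_eq h.symm))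
    obtain ⟨h2, h3⟩ := hixinj _ _ _ _ h1
    rw [h2, h3]
  have hloc : ∀ p : ℕ, p.Prime → p ≤ 4 * m * K → ¬ (p : ℤ) ∣ q → ∃ c : ℤ, ∀ g i, ¬ (p : ℤ) ∣ x g i - c := by
    intro p hp hple hpq
    have hp2 : p ≠ 2 := by
      rintro rfl
      exact hpq (by exact_mod_cast hq2)
    obtain ⟨c', hc'⟩ := exists_class z c hc p hp hp2
    refine ⟨c', fun g i hd => hc' (lt4 m hm1 g) ?_⟩
    have h1 : (p : ℤ) ∣ β (ix g i) := by
      simp only [hβ]
      have h2 : p ∣ (b (ix g i) + 3).factorial := by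
        apply Nat.dvd_factorial hp.pos
        have h3 : ix g i ≤ b (ix g i) := hb.le_apply
        have h4 : p ≤ ix g i := by simp only [hix]; omega
        omega
      exact_mod_cast h2
    have h2 := dvd_sub hd h1
    have h3 : x g i - c' - β (ix g i) = z (lt4 m hm1 g) - c' := by simp only [hx]; ring
    rwa [h3] at h2
  obtain ⟨X, hXU, hXc, hXE⟩ := hQ' x hinj hloc
  -- the hit classes
  set H : Finset (Fin (4 * m)) := univ.filter (fun g : Fin (4 * m) => ∃ i, x g i ∈ X) with hH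
  have hsum : ∑ a, (H.filter (fun g => lt4 m hm1 g = a)).card = H.card := by
    rw [← card_eq_sum_card_fiberwise (f := lt4 m hm1) (s := H) (t := univ) (fun _ _ => mem_coe.2 (mem_univ _))]
  obtain ⟨i, j, hij, hi, hj⟩ := two_of_four (fun a => (H.filter (fun g => lt4 m hm1 g = a)).card) m k
    (fun a => (card_le_card (filter_subset_filter _ (filter_subset _ _))).trans (card_lt4 m hm1 a))
    (by rw [hsum]; exact hXc)
  -- elements of `X` with a given letter
  set Xa : Fin 4 → Finset ℤ := fun a => X.filter (fun y => ∃ g s, lt4 m hm1 g = a ∧ y = x g s) with hXa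
  have hXacard : ∀ a, (H.filter (fun g => lt4 m hm1 g = a)).card ≤ (Xa a).card := by
    intro a
    have h1 : ∀ g ∈ H.filter (fun g => lt4 m hm1 g = a), ∃ s, x g s ∈ X := fun g hg =>
      (mem_filter.1 (mem_filter.1 hg).1).2
    have : Nonempty (Fin K) := ⟨⟨0, by omega⟩⟩
    choose! ss hss using h1
    apply card_le_card_of_injOn (fun g => x g (ss g))
    · intro g hg
      exact mem_coe.2 (mem_filter.2 ⟨hss g hg, g, ss g, (mem_filter.1 hg).2, rfl⟩)
    · intro g _ g' _ h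
      exact congrArg Prod.fst (hinj (a₁ := (g, ss g)) (a₂ := (g', ss g')) h)
  have hlet : ∀ g s g' s', x g s ≤ x g' s' → lt4 m hm1 g ≤ lt4 m hm1 g' := by
    intro g s g' s' h
    have h1 := hle _ _ _ _ h
    have h2 : g.1 ≤ g'.1 := by
      by_contra hcon
      have h3 : g'.1 + 1 ≤ g.1 := by omega
      have h4 : (g'.1 + 1) * K ≤ g.1 * K := Nat.mul_le_mul_right K h3
      have h5 := s'.2
      simp only [hix] at h1
      rw [add_mul] at h4
      omega
    exact Fin.le_def.2 (Nat.div_le_div_right h2)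
  have hXmem : ∀ y ∈ X, ∃ g s, y = x g s := by
    intro y hy
    obtain ⟨⟨g, s⟩, -, h⟩ := mem_image.1 (hXU hy)
    exact ⟨g, s, h.symm⟩
  set W : Finset ℤ := X.filter (fun y => (∃ u ∈ Xa i, u ≤ y) ∧ (∃ v ∈ Xa j, y ≤ v)) with hW
  have hWX : W ⊆ X := filter_subset _ _
  have hconvW : Convex X W := by
    refine ⟨hWX, ?_⟩
    rintro y hy ⟨u, hu, huy⟩ ⟨v, hv, hyv⟩
    obtain ⟨u', hu', huu⟩ := (mem_filter.1 hu).2.1
    obtain ⟨v', hv', hvv⟩ := (mem_filter.1 hv).2.2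
    exact mem_filter.2 ⟨hy, ⟨u', hu', huu.trans huy⟩, ⟨v', hv', hyv.trans hvv⟩⟩
  have hne : ∀ a, k < (Xa a).card → (Xa a).Nonempty := fun a ha => card_pos.1 (by omega)
  have hki := hi.trans_le (hXacard i)
  have hkj := hj.trans_le (hXacard j)
  have hcmp : ∀ u ∈ Xa i, ∀ v ∈ Xa j, u < v := by
    intro u hu v hv
    obtain ⟨g, s, hg, rfl⟩ := (mem_filter.1 hu).2
    obtain ⟨g', s', hg', rfl⟩ := (mem_filter.1 hv).2
    by_contra hcon
    have := hlet _ _ _ _ (not_lt.1 hcon)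
    rw [hg, hg'] at this
    exact absurd hij (not_lt.2 this)
  have hiW : Xa i ⊆ W := by
    intro u hu
    obtain ⟨v, hv⟩ := hne j hkj
    exact mem_filter.2 ⟨(mem_filter.1 hu).1, ⟨u, hu, le_rfl⟩, ⟨v, hv, (hcmp u hu v hv).le⟩⟩
  have hjW : Xa j ⊆ W := by
    intro v hv
    obtain ⟨u, hu⟩ := hne i hki
    exact mem_filter.2 ⟨(mem_filter.1 hv).1, ⟨u, hu, (hcmp u hu v hv).le⟩, ⟨v, hv, le_rfl⟩⟩
  have htr : ∀ g s, x g s ∈ tr (BB b) (z (lt4 m hm1 g)) := by
    intro g s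
    refine ⟨ix g s, ?_⟩
    simp only [hx, hβ]
    ring
  refine ⟨i, j, hij, W.sort, seg_of_sorted (fun s hs0 hs => hXE s hs0 hs) hconvW hiW hki.le
    ?_ hkj.le hjW ?_ ?_ ?_ ?_ ?_⟩
  · -- elements of `W` not in `Xa i` are larger
    intro y hy hyU u hu
    obtain ⟨g, s, rfl⟩ := hXmem y (hWX hy)
    obtain ⟨g', s', hg', rfl⟩ := (mem_filter.1 hu).2
    by_contra hcon
    have h1 := hlet _ _ _ _ (not_lt.1 hcon)
    obtain ⟨w, hw, hwy⟩ := (mem_filter.1 hy).2.1
    obtain ⟨g'', s'', hg'', rfl⟩ := (mem_filter.1 hw).2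
    have h2 := hlet _ _ _ _ hwy
    rw [hg'] at h1
    rw [hg''] at h2
    exact hyU (mem_filter.2 ⟨hWX hy, g, s, le_antisymm h1 h2, rfl⟩)
  · intro y hy hyV v hv
    obtain ⟨g, s, rfl⟩ := hXmem y (hWX hy)
    obtain ⟨g', s', hg', rfl⟩ := (mem_filter.1 hv).2
    by_contra hcon
    have h1 := hlet _ _ _ _ (not_lt.1 hcon)
    obtain ⟨w, hw, hwy⟩ := (mem_filter.1 hy).2.2
    obtain ⟨g'', s'', hg'', rfl⟩ := (mem_filter.1 hw).2
    have h2 := hlet _ _ _ _ hwy
    rw [hg'] at h1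
    rw [hg''] at h2
    exact hyV (mem_filter.2 ⟨hWX hy, g, s, le_antisymm h2 h1, rfl⟩)
  · intro u hu
    obtain ⟨g, s, hg, rfl⟩ := (mem_filter.1 hu).2
    rw [← hg]
    exact htr g s
  · intro v hv
    obtain ⟨g, s, hg, rfl⟩ := (mem_filter.1 hv).2
    rw [← hg]
    exact htr g s
  · intro y hy
    obtain ⟨g, s, rfl⟩ := hXmem y (hWX hy)
    refine ⟨lt4 m hm1 g, ?_, ?_, htr g s⟩
    · obtain ⟨w, hw, hwy⟩ := (mem_filter.1 hy).2.1
      obtain ⟨g'', s'', hg'', rfl⟩ := (mem_filter.1 hw).2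
      rw [← hg'']
      exact hlet _ _ _ _ hwy
    · obtain ⟨w, hw, hwy⟩ := (mem_filter.1 hy).2.2
      obtain ⟨g'', s'', hg'', rfl⟩ := (mem_filter.1 hw).2
      rw [← hg'']
      exact hlet _ _ _ _ hwy
  · intro y hy hyF
    obtain ⟨g, s, rfl⟩ := hXmem y (hWX hy)
    have h1 := (abs_le.1 (hFB _ hyF)).2
    have h2 := (abs_le.1 (hZ (lt4 m hm1 g))).1
    have h3 : ix g s ≤ (b (ix g s) + 3).factorial := by
      have h4 : ix g s ≤ b (ix g s) := hb.le_apply
      have h5 : b (ix g s) + 3 ≤ (b (ix g s) + 3).factorial := Nat.self_le_factorial _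
      omega
    have h4 : FB + Z < ix g s := by simp only [hix]; omega
    have h5 : ((FB + Z : ℕ) : ℤ) < β (ix g s) := by
      simp only [hβ]
      exact_mod_cast h4.trans_le h3
    simp only [hx] at h1
    push_cast at h5
    linarith

theorem conn_four {P : Finset ℤ → Prop} (q : ℕ) (hXP : ColX q P) (hq2 : 2 ∣ q) (b : ℕ → ℕ)
    (hb : StrictMono b) (z : Fin 4 → ℤ) (c : ℤ) (hc : ∀ g, ¬ (3 : ℤ) ∣ z g - c) :
    ∃ i j : Fin 4, i < j ∧ Conn P {x | ∃ g, i ≤ g ∧ g ≤ j ∧ x ∈ tr (BB b) (z g)}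
      (tr (BB b) (z i)) (tr (BB b) (z j)) := by
  classical
  by_contra hcon
  push Not at hcon
  have h1 : ∀ i j : Fin 4, ∃ (k : ℕ) (F : Finset ℤ), i < j → ∀ l,
      ¬ Seg P k {x | ∃ g, i ≤ g ∧ g ≤ j ∧ x ∈ tr (BB b) (z g)}
        (tr (BB b) (z i)) (tr (BB b) (z j)) F l := by
    intro i j
    by_cases h : i < j
    · have h2 := hcon i j h
      unfold Conn at h2
      push Not at h2
      obtain ⟨k, F, h3⟩ := h2
      exact ⟨k, F, fun _ => h3⟩
    · exact ⟨0, ∅, fun h' => absurd h' h⟩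
  choose k F hkF using h1
  obtain ⟨i, j, hij, l, hl⟩ := four q hXP hq2 b hb z c hc
    (univ.sup fun p : Fin 4 × Fin 4 => k p.1 p.2) (univ.biUnion fun p : Fin 4 × Fin 4 => F p.1 p.2)
  refine hkF i j hij l (hl.mono ?_ subset_rfl ?_)
  · exact le_sup (f := fun p : Fin 4 × Fin 4 => k p.1 p.2) (mem_univ (i, j))
  · exact subset_biUnion_of_mem (fun p : Fin 4 × Fin 4 => F p.1 p.2) (mem_univ (i, j))

theorem final_of {P : Finset ℤ → Prop} (hP : TrInv P) (b : ℕ → ℕ) (hB : Clique P (BB b)) (d : ℤ) (hd0 : d ≠ 0)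
    (hd : d ∣ 6) (h : Conn P (SS d) (BB b) (tr (BB b) d)) :
    ∃ x : ℕ → ℤ, Function.Injective x ∧ Set.range x = {y | d ∣ y} ∧
      ∀ k, 1 ≤ k → ∃ i₀, ∀ i ≥ i₀, P ((Finset.range k).image fun j => x (i + j)) := by
  have hBS := BB_sub b d hd
  have hSS : ((SS d : AddSubgroup ℤ) : Set ℤ) = {y | d ∣ y} := by
    ext y; exact mem_SS
  have hT : ∀ z ∈ SS d, Conn P (SS d) (BB b) (tr (BB b) z) := by
    intro z hz
    have h1 : d ∈ TT hP (SS d) (BB b) hB hBS := mem_TT.2 ⟨mem_SS.2 dvd_rfl, h⟩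
    obtain ⟨m, rfl⟩ := mem_SS.1 hz
    have h2 := (TT hP (SS d) (BB b) hB hBS).zsmul_mem h1 m
    rw [smul_eq_mul, mul_comm] at h2
    exact (mem_TT.1 h2).2
  have hinf : ((SS d : AddSubgroup ℤ) : Set ℤ).Infinite := by
    apply Set.infinite_of_injective_forall_mem (f := fun n : ℤ => d * n)
    · exact mul_right_injective₀ hd0
    · intro n
      exact mem_SS.2 (dvd_mul_right d n)
  obtain ⟨e, he⟩ := (Set.to_countable ((SS d : AddSubgroup ℤ) : Set ℤ)).exists_eq_range hinf.nonempty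
  obtain ⟨x, hx1, hx2, hx3⟩ := exists_sequence (P := P) (SS d : Set ℤ) hinf (BB b) hB
    (fun k F y hy hyF => loop hP (SS d) (BB b) hB hBS hT k F y hy hyF) e he.symm
  exact ⟨x, hx1, by rw [hx2, hSS], hx3⟩

theorem main_seq {P : Finset ℤ → Prop} (hP : TrInv P) (q : ℕ) (hXP : ColX q P) (hq2 : 2 ∣ q)
    (b : ℕ → ℕ) (hb : StrictMono b) (hB : Clique P (BB b)) :
    ∃ d : ℕ, 1 ≤ d ∧ d ≤ 3 ∧ ∃ x : ℕ → ℤ, Function.Injective x ∧ Set.range x = {y | (d : ℤ) ∣ y} ∧
      ∀ k, 1 ≤ k → ∃ i₀, ∀ i ≥ i₀, P ((Finset.range k).image fun j => x (i + j)) := by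
  have h1 : (1 : ℤ) ∣ 6 := one_dvd _
  have h2 : (2 : ℤ) ∣ 6 := ⟨3, by norm_num⟩
  have h3 : (3 : ℤ) ∣ 6 := ⟨2, by norm_num⟩
  set T := TT hP (SS 1) (BB b) hB (BB_sub b 1 h1) with hT
  have key : ∀ (z : Fin 4 → ℤ) (i j : Fin 4), Conn P {x | ∃ g, i ≤ g ∧ g ≤ j ∧
      x ∈ tr (BB b) (z g)} (tr (BB b) (z i)) (tr (BB b) (z j)) → z j - z i ∈ T := fun z i j h =>
    mem_TT.2 ⟨mem_SS.2 (one_dvd _), conn_class hP b z 1 h1 h (fun _ _ _ => one_dvd _)⟩
  by_cases hT1 : (1 : ℤ) ∈ T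
  · exact ⟨1, le_rfl, by norm_num, by
      simpa using final_of hP b hB 1 one_ne_zero h1 (mem_TT.1 hT1).2⟩
  by_cases hT2 : (2 : ℤ) ∈ T
  · refine ⟨2, by norm_num, by norm_num, ?_⟩
    obtain ⟨i, j, hij, hc⟩ := conn_four q hXP hq2 b hb ![0, 2, 3, 5] 1 (by decide)
    have hk := key _ i j hc
    have hodd : ∀ m : ℤ, 2 * m + 1 ∉ T := by
      intro m hm
      apply hT1
      have h4 := T.sub_mem hm (T.zsmul_mem hT2 m)
      have h5 : 2 * m + 1 - m • (2 : ℤ) = 1 := by rw [smul_eq_mul]; ring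
      rwa [h5] at h4
    have hgood : Conn P (SS 2) (BB b) (tr (BB b) 2) := by
      fin_cases i <;> fin_cases j <;> first
        | exact absurd hij (by decide)
        | exact absurd hk (hodd 0)
        | exact absurd hk (hodd 1)
        | exact absurd hk (hodd 2)
        | exact conn_class hP b ![0, 2, 3, 5] 2 h2 hc (by decide)
    exact_mod_cast final_of hP b hB 2 two_ne_zero h2 hgood
  by_cases hT3 : (3 : ℤ) ∈ T
  · refine ⟨3, by norm_num, by norm_num, ?_⟩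
    obtain ⟨i, j, hij, hc⟩ := conn_four q hXP hq2 b hb ![0, 3, 1, 4] 2 (by decide)
    have hk := key _ i j hc
    have hodd : ∀ m : ℤ, 3 * m + 1 ∉ T := by
      intro m hm
      apply hT1
      have h4 := T.sub_mem hm (T.zsmul_mem hT3 m)
      have h5 : 3 * m + 1 - m • (3 : ℤ) = 1 := by rw [smul_eq_mul]; ring
      rwa [h5] at h4
    have hgood : Conn P (SS 3) (BB b) (tr (BB b) 3) := by
      fin_cases i <;> fin_cases j <;> first
        | exact absurd hij (by decide)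
        | exact absurd hk (hodd 0)
        | exact absurd hk (hodd 1)
        | exact absurd (show (-2 : ℤ) ∈ T by simpa using hk) (by simpa using hodd (-1))
        | exact conn_class hP b ![0, 3, 1, 4] 3 h3 hc (by decide)
    exact_mod_cast final_of hP b hB 3 three_ne_zero h3 hgood
  · exfalso
    obtain ⟨i, j, hij, hc⟩ := conn_four q hXP hq2 b hb ![0, 1, 3, 4] 2 (by decide)
    have hk := key _ i j hc
    obtain ⟨i', j', hij', hc'⟩ := conn_four q hXP hq2 b hb ![0, 3, 6, 9] 1 (by decide)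
    have hk' := key _ i' j' hc'
    have h4 : (4 : ℤ) ∈ T := by
      fin_cases i <;> fin_cases j <;> first
        | exact absurd hij (by decide)
        | exact absurd hk hT1
        | exact absurd hk hT2
        | exact absurd hk hT3
        | exact hk
    have h69 : (6 : ℤ) ∈ T ∨ (9 : ℤ) ∈ T := by
      fin_cases i' <;> fin_cases j' <;> first
        | exact absurd hij' (by decide)
        | exact absurd hk' hT3
        | exact Or.inl hk'
        | exact Or.inr hk'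
    rcases h69 with h | h
    · have h5 := T.sub_mem h h4
      norm_num at h5
      exact hT2 h5
    · have h5 := T.sub_mem (T.sub_mem h h4) h4
      norm_num at h5
      exact hT1 h5

end Pool.Agent.Run7.h783.GE
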