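import Mathlib
import Pool.Agent.R494.CG1
import Pool.Agent.Run7.h783.GE.NarE

set_option autoImplicit false

/-!
Exact patterns of primes in coloured classes, along narrow progressions.
-/

namespace Pool.Agent.Run7.h783.GE

open Finset Filter Topology
open Pool.Agent.R494.CG (crt)
open Pool.Agent.R494.BGen

/-- the primes within distance `R` of `n` are exactly the `n + q x` with `x ∈ X` -/
def At (q : ℕ) (X : Finset ℤ) (R n : ℕ) : Prop := ∀ y : ℤ, |y| ≤ R →
  (Nat.Prime ((n : ℤ) + y).toNat ↔ ∃ x ∈ X, y = q * x)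

/-- `T` contains narrow progressions of length `l`, arbitrarily far out -/
def NP (l : ℕ) (T : Set ℕ) : Prop := ∃ C : ℕ, ∀ n₀ : ℕ, ∃ n d : ℕ, n₀ ≤ n ∧ 1 ≤ d ∧
  (d : ℝ) ≤ Real.log n ^ C ∧ ∀ j < l, n + j * d ∈ T

theorem NP_mono {l l' : ℕ} {T T' : Set ℕ} (hl : l' ≤ l) (hT : T ⊆ T') (h : NP l T) : NP l' T' := by
  obtain ⟨C, hC⟩ := h
  refine ⟨C, fun n₀ => ?_⟩
  obtain ⟨n, d, h1, h2, h3, h4⟩ := hC n₀
  exact ⟨n, d, h1, h2, h3, fun j hj => hT (h4 j (lt_of_lt_of_le hj hl))⟩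

/-- exact patterns along narrow progressions -/
def EN (q : ℕ) (X : Finset ℤ) (R l : ℕ) : Prop := NP l {n | At q X R n}

theorem EN_mono {q : ℕ} {X : Finset ℤ} {R R' l l' : ℕ} (hR : R' ≤ R) (hl : l' ≤ l) (h : EN q X R l) :
    EN q X R' l' := by
  refine NP_mono hl ?_ h
  intro n hn y hy
  exact hn y (hy.trans (by exact_mod_cast hR))

/-- the conclusion of the coloured theorem -/
def NE (T K M : ℕ) : Prop := ∀ H : Fin T → Fin K → ℤ × ℤ,
    Function.Injective (fun x : Fin T × Fin K => H x.1 x.2) →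
    (∀ g i, 0 < (H g i).1 ∧ IsCoprime (H g i).1 (H g i).2) →
    (∀ p : ℕ, p.Prime → p ≤ T * K → ∃ r : ℤ, ∀ g i, ¬ (p : ℤ) ∣ (H g i).1 * r + (H g i).2) →
    ∀ l : ℕ, ∃ C : ℕ, ∀ᶠ N : ℕ in atTop, ∃ P ∈ (univ.image (fun x : Fin T × Fin K => H x.1 x.2)).powerset,
      M + 1 ≤ (univ.filter (fun g : Fin T => ∃ i, H g i ∈ P)).card ∧
      QE l C N P ((univ.image (fun x : Fin T × Fin K => H x.1 x.2)) \ P)

theorem ev_pow (C : ℕ) (M : ℝ) (hM : 0 < M) : ∀ᶠ N : ℕ in atTop, M * (Real.log N) ^ C ≤ N := by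
  have h1 := (Real.isLittleO_pow_log_id_atTop (n := C)).bound (show 0 < 1 / M by positivity)
  have h2 := tendsto_natCast_atTop_atTop (R := ℝ) |>.eventually h1
  filter_upwards [h2] with N hN
  rw [id, Real.norm_eq_abs, Real.norm_eq_abs, abs_of_nonneg (Nat.cast_nonneg N : (0 : ℝ) ≤ N)] at hN
  have h3 := (le_abs_self _).trans hN
  calc M * (Real.log N) ^ C ≤ M * (1 / M * N) := mul_le_mul_of_nonneg_left h3 hM.le
    _ = N := by field_simp

theorem ev_log (M : ℝ) : ∀ᶠ N : ℕ in atTop, M ≤ Real.log N :=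
  (Real.tendsto_log_atTop.comp tendsto_natCast_atTop_atTop).eventually_ge_atTop M

/-- exact patterns for one radius and one length -/
theorem exact_one (T K M : ℕ) (hQ : NE T K M)
    (q : ℕ) (r : ℤ) (hq1 : 1 ≤ q) (hqr : IsCoprime r (q : ℤ)) (x : Fin T → Fin K → ℤ)
    (hxinj : Function.Injective (fun y : Fin T × Fin K => x y.1 y.2))
    (hx : ∀ p : ℕ, p.Prime → p ≤ T * K → ¬ (p : ℤ) ∣ q → ∃ c : ℤ, ∀ g i, ¬ (p : ℤ) ∣ x g i - c)
    (R l : ℕ) : ∃ X : Finset ℤ, X ⊆ univ.image (fun y : Fin T × Fin K => x y.1 y.2) ∧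
      M + 1 ≤ (univ.filter (fun g : Fin T => ∃ i, x g i ∈ X)).card ∧ EN q X R l := by
  classical
  have hq0 : (0 : ℤ) < q := by exact_mod_cast hq1
  set U : Finset ℤ := univ.image (fun y : Fin T × Fin K => x y.1 y.2) with hU
  have hxU : ∀ g i, x g i ∈ U := fun g i => mem_image_of_mem (fun y : Fin T × Fin K => x y.1 y.2)
    (mem_univ (g, i))
  -- a radius containing all the forms
  obtain ⟨R₁, hR₁⟩ : ∃ R₁ : ℕ, ∀ z ∈ U, |(q : ℤ) * z| ≤ R₁ := by
    refine ⟨U.sup fun z => ((q : ℤ) * z).natAbs, fun z hz => ?_⟩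
    rw [Int.abs_eq_natAbs]
    exact_mod_cast Finset.le_sup (f := fun z : ℤ => ((q : ℤ) * z).natAbs) hz
  set R₂ : ℕ := R + R₁ with hR₂
  -- the integers to be killed
  set Y : Finset ℤ := (Icc (-(R₂ : ℤ)) R₂).filter (fun y => ∀ z ∈ U, y ≠ q * z) with hY
  -- distinct large primes
  have hinfp : {p : ℕ | p.Prime ∧ 2 * R₂ + q + 1 < p}.Infinite := by
    have h1 := Nat.infinite_setOfPred_prime.sdiff (Set.finite_Iic (2 * R₂ + q + 1))
    refine h1.mono ?_
    rintro p ⟨hp, hp2⟩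
    exact ⟨hp, not_le.1 hp2⟩
  set em := Set.Infinite.natEmbedding _ hinfp with hem
  set P : ℤ → ℕ := fun y => (em (y + R₂).toNat : ℕ) with hP
  have hPp : ∀ y, (P y).Prime := fun y => (em (y + R₂).toNat).2.1
  have hPb : ∀ y, 2 * R₂ + q + 1 < P y := fun y => (em (y + R₂).toNat).2.2
  have hPinj : ∀ y ∈ Y, ∀ y' ∈ Y, P y = P y' → y = y' := by
    intro y hy y' hy' h
    have h1 := (mem_Icc.1 (mem_filter.1 hy).1).1
    have h2 := (mem_Icc.1 (mem_filter.1 hy').1).1
    have h3 : (y + R₂).toNat = (y' + R₂).toNat := em.injective (Subtype.ext h)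
    omega
  have hPcop : ∀ y ∈ Y, ∀ y' ∈ Y, y ≠ y' → IsCoprime ((P y : ℕ) : ℤ) ((P y' : ℕ) : ℤ) := by
    intro y hy y' hy' hne
    rw [Nat.isCoprime_iff_coprime, Nat.coprime_primes (hPp y) (hPp y')]
    exact fun h => hne (hPinj y hy y' hy' h)
  have hPq : ∀ y, IsCoprime ((P y : ℕ) : ℤ) (q : ℤ) := by
    intro y
    rw [Nat.isCoprime_iff_coprime, (hPp y).coprime_iff_not_dvd]
    intro hd
    have := Nat.le_of_dvd (by omega) hd
    have := hPb y
    omega
  set PP : ℕ := ∏ y ∈ Y, P y with hPP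
  have hPP0 : 0 < PP := prod_pos fun y _ => (hPp y).pos
  -- the residue
  obtain ⟨n₀, hn₀, hn₀q, hn₀0⟩ : ∃ n₀ : ℤ, (∀ y ∈ Y, ((P y : ℕ) : ℤ) ∣ n₀ + y) ∧ (q : ℤ) ∣ n₀ - r ∧ 0 ≤ n₀ := by
    obtain ⟨n₀, h⟩ := crt (insertNone Y) (fun o => o.elim (q : ℤ) (fun y => ((P y : ℕ) : ℤ)))
      (fun o => o.elim r (fun y => -y)) (by
        intro i hi j hj hij
        rcases i with _ | y <;> rcases j with _ | y'
        · exact absurd rfl hij
        · exact (hPq y').symm
        · exact hPq y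
        · exact hPcop y (some_mem_insertNone.1 hi) y' (some_mem_insertNone.1 hj)
            (fun h => hij (by rw [h])))
    refine ⟨n₀ + (q : ℤ) * PP * |n₀|, fun y hy => ?_, ?_, ?_⟩
    · have h1 := h (some y) (some_mem_insertNone.2 hy)
      have h2 : ((P y : ℕ) : ℤ) ∣ (PP : ℤ) := by exact_mod_cast dvd_prod_of_mem P hy
      have h3 : n₀ + (q : ℤ) * PP * |n₀| + y = (n₀ - -y) + PP * (q * |n₀|) := by ring
      rw [h3]
      exact dvd_add (by simpa using h1) (h2.mul_right _)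
    · have h1 := h none (by simp)
      have h3 : n₀ + (q : ℤ) * PP * |n₀| - r = (n₀ - r) + q * (PP * |n₀|) := by ring
      rw [h3]
      exact dvd_add (by simpa using h1) (dvd_mul_right _ _)
    · have h4 : (1 : ℤ) ≤ (q : ℤ) * PP := by
        have h3 : 1 ≤ q * PP := Nat.mul_pos hq1 hPP0
        exact_mod_cast h3
      have h5 := neg_abs_le n₀
      have h6 := abs_nonneg n₀
      nlinarith
  -- the local condition
  have hlocA : ∀ p : ℕ, p.Prime → ∃ n : ℤ, ∀ g i, ¬ (p : ℤ) ∣ (q : ℤ) * PP * n + (n₀ + q * x g i) := by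
    intro p hp
    have hpp := Nat.prime_iff_prime_int.1 hp
    by_cases hpq : (p : ℤ) ∣ q
    · refine ⟨0, fun g i hd => ?_⟩
      have h1 : (p : ℤ) ∣ r := by
        have h2 : (p : ℤ) ∣ (q : ℤ) * x g i := Dvd.dvd.mul_right hpq _
        have h3 := (dvd_add_left h2).1 (by simpa using hd)
        have h4 : (p : ℤ) ∣ n₀ - r := hpq.trans hn₀q
        have h5 := dvd_sub h3 h4
        simpa using h5
      exact hpp.not_isUnit (hqr.isUnit_of_dvd' h1 hpq)
    by_cases hpP : (p : ℤ) ∣ (PP : ℤ)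
    · have h1 : p ∣ PP := by exact_mod_cast hpP
      obtain ⟨y, hy, hpy⟩ := (Prime.dvd_finsetProd_iff hp.prime P).1 h1
      have h2 : p = P y := (Nat.prime_dvd_prime_iff_eq hp (hPp y)).1 hpy
      refine ⟨0, fun g i hd => ?_⟩
      rw [mul_zero, zero_add] at hd
      have h3 := dvd_sub hd (h2 ▸ hn₀ y hy)
      have h4 : n₀ + q * x g i - (n₀ + y) = q * x g i - y := by ring
      rw [h4] at h3
      have h5 : q * x g i - y ≠ 0 := by
        intro h
        exact (mem_filter.1 hy).2 (x g i) (hxU g i) (by linarith)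
      have h6 := Int.le_of_dvd (abs_pos.2 h5) ((dvd_abs _ _).2 h3)
      have h7 := hR₁ _ (hxU g i)
      have h8 := mem_Icc.1 (mem_filter.1 hy).1
      have h9 : |(q : ℤ) * x g i - y| ≤ |(q : ℤ) * x g i| + |y| := abs_sub _ _
      have h10 : |y| ≤ R₂ := abs_le.2 h8
      have h11 := hPb y
      rw [← h2] at h11
      have h12 : ((2 * R₂ + q + 1 : ℕ) : ℤ) < p := by exact_mod_cast h11
      push_cast at h12 h10
      rw [hR₂] at h12 h10
      push_cast at h12 h10
      linarith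
    · have hcop : IsCoprime ((q : ℤ) * PP) (p : ℤ) := by
        rw [isCoprime_comm]
        refine (Prime.coprime_iff_not_dvd hpp).2 fun h => ?_
        rcases hpp.dvd_or_dvd h with h | h
        · exact hpq h
        · exact hpP h
      obtain ⟨u, w, huw⟩ := hcop
      obtain ⟨c, hc⟩ : ∃ c : ℤ, ∀ g i, ¬ (p : ℤ) ∣ x g i - c := by
        rcases Nat.lt_or_ge (T * K) p with h | h
        · obtain ⟨n, hn⟩ := exists_shift_int hp h x
          refine ⟨-n, fun g i hd => hn g i ?_⟩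
          have : x g i - -n = n + x g i := by ring
          rwa [this] at hd
        · exact hx p hp h hpq
      refine ⟨u * (- q * c - n₀), fun g i hd => hc g i ?_⟩
      have e1 : (q : ℤ) * PP * (u * (- q * c - n₀)) + (n₀ + q * x g i) =
          q * (x g i - c) + (-(w * (- q * c - n₀))) * p := by
        have : u * ((q : ℤ) * PP) = 1 - w * p := by linarith
        calc (q : ℤ) * PP * (u * (- q * c - n₀)) + (n₀ + q * x g i)
            = (u * ((q : ℤ) * PP)) * (- q * c - n₀) + (n₀ + q * x g i) := by ring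
          _ = _ := by rw [this]; ring
      rw [e1] at hd
      have h2 : (p : ℤ) ∣ q * (x g i - c) := (dvd_add_left (Dvd.intro_left _ rfl)).1 hd
      exact (hpp.dvd_or_dvd h2).resolve_left hpq
  set H : Fin T → Fin K → ℤ × ℤ := fun g i => ((q : ℤ) * PP, n₀ + q * x g i) with hH
  set UH : Finset (ℤ × ℤ) := univ.image (fun x : Fin T × Fin K => H x.1 x.2) with hUH
  obtain ⟨C, hC⟩ := hQ H
    (by
      intro y y' hyy
      have h1 := congrArg Prod.snd hyy
      simp only [hH, add_right_inj] at h1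
      exact hxinj (mul_left_cancel₀ hq0.ne' h1))
    (by
      intro g i
      refine ⟨by simp only [hH]; positivity, ?_⟩
      rw [Int.isCoprime_iff_gcd_eq_one]
      by_contra hg
      obtain ⟨p, hp, hpd⟩ := Nat.exists_prime_and_dvd hg
      obtain ⟨n, hn⟩ := hlocA p hp
      apply hn g i
      have h1 : (p : ℤ) ∣ (q : ℤ) * PP := (Int.natCast_dvd_natCast.2 hpd).trans (Int.gcd_dvd_left ..)
      have h2 : (p : ℤ) ∣ n₀ + q * x g i := (Int.natCast_dvd_natCast.2 hpd).trans (Int.gcd_dvd_right ..)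
      exact dvd_add (h1.mul_right _) h2)
    (fun p hp _ => by
      obtain ⟨n, hn⟩ := hlocA p hp
      exact ⟨n, fun g i => hn g i⟩) l
  -- one pattern
  obtain ⟨P₀, hP₀U, hP₀c, hfreq⟩ : ∃ P₀ ∈ UH.powerset,
      M + 1 ≤ (univ.filter (fun g : Fin T => ∃ i, H g i ∈ P₀)).card ∧
        ∃ᶠ N : ℕ in atTop, QE l C N P₀ (UH \ P₀) := by
    by_contra hcon
    push Not at hcon
    have h1 : ∀ᶠ N : ℕ in atTop, ∀ P₀ ∈ UH.powerset,
        M + 1 ≤ (univ.filter (fun g : Fin T => ∃ i, H g i ∈ P₀)).card → ¬ QE l C N P₀ (UH \ P₀) := by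
      rw [Filter.eventually_all_finset]
      intro P₀ hP₀
      by_cases hx : M + 1 ≤ (univ.filter (fun g : Fin T => ∃ i, H g i ∈ P₀)).card
      · filter_upwards [hcon P₀ hP₀ hx] with N hN _ using hN
      · exact Eventually.of_forall fun N h => absurd h hx
    obtain ⟨N, hN1, P₀, hP₀, h2, h3⟩ := (h1.and hC).exists
    exact hN1 P₀ hP₀ h2 h3
  set X : Finset ℤ := U.filter (fun z => ((q : ℤ) * PP, n₀ + q * z) ∈ P₀) with hX
  refine ⟨X, filter_subset _ _, ?_, 2 * C + 1, fun n₁ => ?_⟩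
  · refine hP₀c.trans (card_le_card fun g hg => ?_)
    obtain ⟨-, i, hi⟩ := mem_filter.1 hg
    exact mem_filter.2 ⟨mem_univ _, i, mem_filter.2 ⟨hxU g i, hi⟩⟩
  -- the bound
  obtain ⟨B, hB1, hB2⟩ : ∃ B : ℕ, n₁ + R₂ + 1 ≤ B ∧ ∀ y ∈ Y, P y + R₂ + 1 ≤ B := by
    refine ⟨n₁ + R₂ + 1 + ∑ y ∈ Y, P y, by omega, fun y hy => ?_⟩
    have := single_le_sum (f := fun y => P y) (fun _ _ => Nat.zero_le _) hy
    omega
  obtain ⟨N, ⟨d, hd1, hd2, hd3⟩, hN1, hN2, hN3⟩ := (hfreq.and_eventually ((ev_pow (2 * C) 1 one_pos).and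
    ((ev_log (2 * (q * PP + 2))).and (eventually_ge_atTop (B * B + 3))))).exists
  rw [one_mul] at hN1
  have hNr : (0 : ℝ) < N := by exact_mod_cast (by omega : 0 < N)
  have hqPP : (1 : ℝ) ≤ q * PP := by
    have h3 : 1 ≤ q * PP := Nat.mul_pos hq1 hPP0
    exact_mod_cast h3
  have hLN : 6 ≤ Real.log N := by linarith
  have hLC : 0 < Real.log N ^ C := by positivity
  set s : Finset ℕ := (Icc 1 N).filter (fun n : ℕ => ∀ j < l,
    (∀ f ∈ P₀, (f.1 * ((n + j * d : ℕ) : ℤ) + f.2).toNat.Prime) ∧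
    ∀ f ∈ UH \ P₀, ¬ (f.1 * ((n + j * d : ℕ) : ℤ) + f.2).toNat.Prime) with hs
  have hsc : (N : ℝ) / (Real.log N) ^ C ≤ (s.card : ℝ) := by
    refine hd3.trans (le_of_eq ?_)
    unfold cE
    rw [hs]
  have hspos : 0 < s.card := by
    have h0 : (0 : ℝ) < N / (Real.log N) ^ C := by positivity
    exact_mod_cast h0.trans_le hsc
  obtain ⟨u, hus, hucard⟩ : ∃ u ∈ s, s.card ≤ u := by
    obtain ⟨u, hu, humax⟩ := s.exists_max_image id (card_pos.1 hspos)
    refine ⟨u, hu, ?_⟩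
    have h1 : s ⊆ Icc 1 u := by
      intro n hn
      exact mem_Icc.2 ⟨(mem_Icc.1 (mem_filter.1 hn).1).1, humax n hn⟩
    have h2 := card_le_card h1
    rwa [Nat.card_Icc, Nat.add_sub_cancel] at h2
  obtain ⟨hu1, hu2⟩ := mem_filter.1 hus
  have hu3 := mem_Icc.1 hu1
  have hur : (N : ℝ) / (Real.log N) ^ C ≤ u := hsc.trans (by exact_mod_cast hucard)
  have husq : (N : ℝ) ≤ (u : ℝ) * u := by
    have h1 : (N : ℝ) ≤ u * Real.log N ^ C := by rwa [div_le_iff₀ hLC] at hur
    have h2 : Real.log N ^ C * Real.log N ^ C ≤ N := by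
      rw [← pow_add, ← two_mul]
      exact hN1
    have h3 : (N : ℝ) * N ≤ (u * Real.log N ^ C) * (u * Real.log N ^ C) :=
      mul_le_mul h1 h1 hNr.le (hNr.le.trans h1)
    have h4 : (u * Real.log N ^ C) * (u * Real.log N ^ C) = (u : ℝ) * u * (Real.log N ^ C * Real.log N ^ C) := by
      ring
    have h5 : (u : ℝ) * u * (Real.log N ^ C * Real.log N ^ C) ≤ (u : ℝ) * u * N :=
      mul_le_mul_of_nonneg_left h2 (by positivity)
    have h6 : (N : ℝ) * N ≤ (u : ℝ) * u * N := by linarith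
    exact le_of_mul_le_mul_right h6 hNr
  have huB : B ≤ u := by
    by_contra hcon
    push Not at hcon
    have h1 : u * u ≤ B * B := Nat.mul_le_mul hcon.le hcon.le
    have h2 : N ≤ u * u := by exact_mod_cast husq
    omega
  have hu0 : (0 : ℝ) < u := by exact_mod_cast (by omega : 0 < u)
  have hlogu : Real.log N ≤ 2 * Real.log u := by
    have h1 := Real.log_le_log hNr husq
    rw [Real.log_mul hu0.ne' hu0.ne'] at h1
    linarith
  -- the numbers
  set F : ℕ → ℕ := fun u => q * PP * u + n₀.toNat with hF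
  have hFz : ∀ u : ℕ, ((F u : ℕ) : ℤ) = (q : ℤ) * PP * u + n₀ := by
    intro u
    simp only [hF]
    push_cast
    rw [Int.toNat_of_nonneg hn₀0]
  have hFu : ∀ u, u ≤ F u := by
    intro u
    have h1 : 1 * u ≤ q * PP * u := Nat.mul_le_mul_right _ (Nat.mul_pos hq1 hPP0)
    simp only [hF]
    omega
  have hFadd : ∀ j, F u + j * (q * PP * d) = F (u + j * d) := by
    intro j
    simp only [hF]
    ring
  have hFr : (u : ℝ) ≤ (F u : ℝ) := by exact_mod_cast hFu u
  have hlogF : Real.log u ≤ Real.log (F u) := Real.log_le_log hu0 hFr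
  refine ⟨F u, q * PP * d, by have := hFu u; omega, Nat.mul_pos (Nat.mul_pos hq1 hPP0) hd1, ?_, ?_⟩
  · set L : ℝ := Real.log (F u) with hL
    have hLL : Real.log N ≤ 2 * L := by linarith
    have hL2 : 2 ≤ L := by linarith
    have hLq : (q * PP : ℝ) ≤ L := by linarith
    have h1 : (d : ℝ) ≤ L ^ (2 * C) := by
      refine hd2.trans ?_
      rw [pow_mul]
      apply pow_le_pow_left₀ (by linarith)
      nlinarith
    push_cast
    rw [pow_succ']
    exact mul_le_mul hLq h1 (Nat.cast_nonneg _) (by linarith)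
  · intro j hj
    rw [hFadd]
    obtain ⟨h1, h2⟩ := hu2 j hj
    set v : ℕ := u + j * d with hv
    have hvB : B ≤ v := huB.trans (Nat.le_add_right _ _)
    intro y hy
    by_cases hyU : ∃ z ∈ U, y = q * z
    · obtain ⟨z, hz, rfl⟩ := hyU
      have hval : ((F v : ℕ) : ℤ) + q * z = (q : ℤ) * PP * (v : ℤ) + (n₀ + q * z) := by
        rw [hFz]; ring
      have hzH : ((q : ℤ) * PP, n₀ + q * z) ∈ UH := by
        obtain ⟨w, -, rfl⟩ := mem_image.1 hz
        exact mem_image.2 ⟨w, mem_univ _, rfl⟩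
      constructor
      · intro hp
        refine ⟨z, mem_filter.2 ⟨hz, ?_⟩, rfl⟩
        by_contra hcon
        refine h2 _ (Finset.mem_sdiff.2 ⟨hzH, hcon⟩) ?_
        show ((q : ℤ) * PP * (v : ℤ) + (n₀ + q * z)).toNat.Prime
        rw [← hval]
        exact hp
      · rintro ⟨z', hz', hzz⟩
        have : z = z' := mul_left_cancel₀ hq0.ne' hzz
        subst this
        have h3 := h1 _ (mem_filter.1 hz').2
        have h4 : ((q : ℤ) * PP * (v : ℤ) + (n₀ + q * z)).toNat.Prime := h3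
        rw [← hval] at h4
        exact h4
    · push Not at hyU
      have hyY : y ∈ Y := by
        rw [hY, mem_filter, mem_Icc]
        refine ⟨abs_le.1 (hy.trans ?_), hyU⟩
        rw [hR₂]
        push_cast
        linarith [Int.natCast_nonneg R₁]
      constructor
      · intro hp
        exfalso
        have h9 : ((P y : ℕ) : ℤ) ∣ (F v : ℤ) + y := by
          have h10 : ((P y : ℕ) : ℤ) ∣ (PP : ℤ) := by
            exact_mod_cast dvd_prod_of_mem P hyY
          have h11 : (F v : ℤ) + y = (q : ℤ) * PP * v + (n₀ + y) := by rw [hFz]; ring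
          rw [h11]
          exact dvd_add (Dvd.dvd.mul_right (Dvd.dvd.mul_left h10 _) _) (hn₀ y hyY)
        have h8 : ((P y : ℕ) : ℤ) < F v + y := by
          have e1 := hB2 y hyY
          have e2 := hFu v
          have e3 := (abs_le.1 (hy.trans (show (R : ℤ) ≤ R₂ by rw [hR₂]; push_cast; linarith [Int.natCast_nonneg R₁]))).1
          have e4 : ((P y + R₂ + 1 : ℕ) : ℤ) ≤ (F v : ℕ) := by exact_mod_cast (e1.trans hvB).trans e2
          push_cast at e4
          linarith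
        have hpos : 0 ≤ (F v : ℤ) + y := by
          have := Int.natCast_nonneg (P y)
          linarith
        have h12 : P y ∣ ((F v : ℤ) + y).toNat := by
          have : ((P y : ℕ) : ℤ) ∣ ((((F v : ℤ) + y).toNat : ℕ) : ℤ) := by
            rw [Int.toNat_of_nonneg hpos]; exact h9
          exact_mod_cast this
        have h13 := (Nat.prime_dvd_prime_iff_eq (hPp y) hp).1 h12
        have h14 : ((((F v : ℤ) + y).toNat : ℕ) : ℤ) = F v + y := Int.toNat_of_nonneg hpos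
        rw [← h13] at h14
        linarith
      · rintro ⟨z, hz, hzz⟩
        exact absurd hzz (hyU z (mem_filter.1 hz).1)

/-- exact patterns for all radii and lengths -/
theorem exact_all (T K M : ℕ) (hQ : NE T K M)
    (q : ℕ) (r : ℤ) (hq1 : 1 ≤ q) (hqr : IsCoprime r (q : ℤ)) (x : Fin T → Fin K → ℤ)
    (hxinj : Function.Injective (fun y : Fin T × Fin K => x y.1 y.2))
    (hx : ∀ p : ℕ, p.Prime → p ≤ T * K → ¬ (p : ℤ) ∣ q → ∃ c : ℤ, ∀ g i, ¬ (p : ℤ) ∣ x g i - c) :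
    ∃ X : Finset ℤ, X ⊆ univ.image (fun y : Fin T × Fin K => x y.1 y.2) ∧
      M + 1 ≤ (univ.filter (fun g : Fin T => ∃ i, x g i ∈ X)).card ∧ ∀ R l, EN q X R l := by
  classical
  have h := fun R : ℕ => exact_one T K M hQ q r hq1 hqr x hxinj hx R R
  choose X hX1 hX2 hX3 using h
  set U : Finset ℤ := univ.image (fun y : Fin T × Fin K => x y.1 y.2) with hU
  obtain ⟨X₀, hX₀, hinf⟩ : ∃ X₀ ∈ U.powerset, {R : ℕ | X R = X₀}.Infinite := by
    by_contra hcon
    push Not at hcon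
    refine Set.infinite_univ (α := ℕ) ((Set.Finite.biUnion (U.powerset.finite_toSet) (fun X hX =>
      hcon X hX)).subset ?_)
    intro R _
    exact Set.mem_biUnion (show X R ∈ (U.powerset : Set (Finset ℤ)) from mem_powerset.2 (hX1 R)) rfl
  obtain ⟨R, hR⟩ := hinf.nonempty
  have hR' : X R = X₀ := hR
  refine ⟨X₀, mem_powerset.1 hX₀, ?_, fun R' l => ?_⟩
  · rw [← hR']; exact hX2 R
  · obtain ⟨R'', hR'', hlt⟩ := hinf.exists_gt (max R' l)
    have h1 : X R'' = X₀ := hR''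
    have h2 := hX3 R''
    rw [h1] at h2
    exact EN_mono (le_of_lt (lt_of_le_of_lt (le_max_left _ _) hlt)) (le_of_lt (lt_of_le_of_lt (le_max_right _ _) hlt)) h2

end Pool.Agent.Run7.h783.GE
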