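import Mathlib
import Pool.Agent.Run7.h783.GE.Exact
import Pool.Agent.Run7.h783.OneSeq.Four

set_option autoImplicit false

/-!
Windows of consecutive primes at all terms of narrow progressions: the property of finite sets, its invariance
under translations, and cliques.
-/

namespace Pool.Agent.Run7.h783.GE

open Finset Filter
open Pool.Agent.Run7.h783.OneSeq

/-- the primes between the least and the largest of the numbers `n + q w`, `w ∈ W`, are exactly these numbers -/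
def WA (q : ℕ) (W : Finset ℤ) (n : ℕ) : Prop := ∀ y : ℤ, (∃ a ∈ W, (q : ℤ) * a ≤ y) →
  (∃ b ∈ W, y ≤ (q : ℤ) * b) → (Nat.Prime ((n : ℤ) + y).toNat ↔ ∃ x ∈ W, y = (q : ℤ) * x)

/-- exact windows along narrow progressions of every length -/
def PN (q : ℕ) (W : Finset ℤ) : Prop := ∀ l : ℕ, NP l {n | WA q W n}

theorem NP_shift {l : ℕ} {T T' : Set ℕ} (w : ℤ) (n₁ : ℕ)
    (hT : ∀ n : ℕ, n₁ ≤ n → n ∈ T → ((n : ℤ) - w).toNat ∈ T') (h : NP l T) : NP l T' := by
  obtain ⟨C, hC⟩ := h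
  refine ⟨2 * C, fun n₀ => ?_⟩
  obtain ⟨N₂, hN₂⟩ := eventually_atTop.1 (ev_log 2)
  obtain ⟨n, d, h1, h2, h3, h4⟩ := hC (n₀ + n₁ + 2 * w.natAbs + N₂ + 2)
  set m : ℕ := ((n : ℤ) - w).toNat with hm
  have hmn : n ≤ m + w.natAbs := by omega
  have hmn2 : n ≤ 2 * m := by omega
  have hm2 : N₂ ≤ m := by omega
  refine ⟨m, d, by omega, h2, ?_, fun j hj => ?_⟩
  · have hL := hN₂ m hm2
    have hn0 : (0 : ℝ) < n := by exact_mod_cast (by omega : 0 < n)
    have hm0 : (0 : ℝ) < m := by exact_mod_cast (by omega : 0 < m)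
    have hm2' : (2 : ℝ) ≤ m := by exact_mod_cast (by omega : 2 ≤ m)
    have h5 : Real.log n ≤ 2 * Real.log m := by
      have h6 : (n : ℝ) ≤ (m : ℝ) * m := by
        have h7 : (n : ℝ) ≤ 2 * m := by exact_mod_cast hmn2
        nlinarith
      have h8 := Real.log_le_log hn0 h6
      rw [Real.log_mul hm0.ne' hm0.ne'] at h8
      linarith
    have hn1 : 0 ≤ Real.log n := Real.log_nonneg (by exact_mod_cast (by omega : 1 ≤ n))
    refine h3.trans ?_
    rw [pow_mul]
    apply pow_le_pow_left₀ hn1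
    nlinarith
  · have h5 := hT (n + j * d) (by omega) (h4 j hj)
    have h6 : (((n + j * d : ℕ) : ℤ) - w).toNat = m + j * d := by
      push_cast
      have h7 : (0 : ℤ) ≤ (n : ℤ) - w := by omega
      have h8 : ((m : ℕ) : ℤ) = (n : ℤ) - w := Int.toNat_of_nonneg h7
      have h9 : (n : ℤ) + j * d - w = ((m + j * d : ℕ) : ℤ) := by
        push_cast
        rw [h8]
        ring
      rw [h9, Int.toNat_natCast]
    rwa [h6] at h5

theorem trInv_PN (q : ℕ) : TrInv (PN q) := by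
  intro W z hW l
  refine NP_shift ((q : ℤ) * z) (((q : ℤ) * z).natAbs) ?_ (hW l)
  intro n hn hnW
  have hpos : (0 : ℤ) ≤ (n : ℤ) - q * z := by omega
  have hcast : ((((n : ℤ) - q * z).toNat : ℕ) : ℤ) = (n : ℤ) - q * z := Int.toNat_of_nonneg hpos
  rintro y ⟨a, ha, hay⟩ ⟨b, hb, hyb⟩
  obtain ⟨a', ha', rfl⟩ := mem_image.1 ha
  obtain ⟨b', hb', rfl⟩ := mem_image.1 hb
  have h1 := hnW (y - q * z) ⟨a', ha', by linarith⟩ ⟨b', hb', by linarith⟩
  rw [hcast, show (n : ℤ) - q * z + y = n + (y - q * z) by ring, h1]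
  constructor
  · rintro ⟨x, hx, hxy⟩
    exact ⟨x + z, mem_image_of_mem _ hx, by linarith⟩
  · rintro ⟨x, hx, hxy⟩
    obtain ⟨x', hx', rfl⟩ := mem_image.1 hx
    exact ⟨x', hx', by linarith⟩

theorem pn_of_exact (q : ℕ) (hq : 1 ≤ q) (X : Finset ℤ) (hX : ∀ R l, EN q X R l)
    (s : Finset ℤ) (hs : Convex X s) : PN q s := by
  have hq0 : (0 : ℤ) < q := by exact_mod_cast hq
  intro l
  obtain ⟨R, hR⟩ := exists_radius q X
  refine NP_mono le_rfl ?_ (hX R l)
  intro n hn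
  rintro y ⟨a, ha, hay⟩ ⟨b, hb, hyb⟩
  have hab : |y| ≤ R := by
    have h3 := abs_le.1 (hR a (hs.1 ha))
    have h4 := abs_le.1 (hR b (hs.1 hb))
    rw [abs_le]
    constructor <;> linarith [h3.1, h4.2]
  rw [hn y hab]
  constructor
  · rintro ⟨x, hx, rfl⟩
    exact ⟨x, hs.2 x hx ⟨a, ha, le_of_mul_le_mul_left hay hq0⟩ ⟨b, hb, le_of_mul_le_mul_left hyb hq0⟩, rfl⟩
  · rintro ⟨x, hx, rfl⟩
    exact ⟨x, hs.1 hx, rfl⟩

/-- the hereditary theorem, as a hypothesis -/
def HerN : Prop := ∀ A : Set ℤ, A.Infinite → ∃ B ⊆ A, B.Infinite ∧ ∀ R l : ℕ, ∀ I ⊆ B,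
  NP l {n : ℕ | ∀ y : ℤ, |y| ≤ R → (Nat.Prime ((n : ℤ) + y).toNat ↔ y ∈ I)}

theorem exists_cliqueN (hH : HerN) (q : ℕ) (hq : 1 ≤ q) :
    ∃ b : ℕ → ℕ, StrictMono b ∧ Clique (PN q) (BB b) := by
  classical
  have hq0 : (0 : ℤ) < q := by exact_mod_cast hq
  have hfac : StrictMono (fun i : ℕ => (i + 3).factorial) := by
    intro i j hij
    exact (Nat.factorial_lt (by omega)).2 (by simpa using hij)
  set φ : ℕ → ℤ := fun i => (q : ℤ) * (((i + 3).factorial : ℕ) : ℤ) with hφdef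
  have hφ : Function.Injective φ := by
    intro i j hij
    have h1 := mul_left_cancel₀ hq0.ne' hij
    exact hfac.injective (by exact_mod_cast h1)
  obtain ⟨B, hBA, hB, hBN⟩ := hH (Set.range φ) (Set.infinite_range_of_injective hφ)
  have hI : {i : ℕ | φ i ∈ B}.Infinite := by
    intro hfin
    apply hB
    have h1 : φ '' {i : ℕ | φ i ∈ B} = B := Set.image_preimage_eq_of_subset hBA
    rw [← h1]
    exact hfin.image φ
  set b : ℕ → ℕ := Nat.nth (fun i => φ i ∈ B) with hb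
  have hbm : StrictMono b := Nat.nth_strictMono hI
  have hbB : ∀ i, φ (b i) ∈ B := fun i => Nat.nth_mem_of_infinite hI i
  refine ⟨b, hbm, ?_, ?_⟩
  · have h1 : BB b = Set.range (fun i => (((b i + 3).factorial : ℕ) : ℤ)) := by
      ext x
      constructor
      · rintro ⟨i, rfl⟩; exact ⟨i, rfl⟩
      · rintro ⟨i, rfl⟩; exact ⟨i, rfl⟩
    rw [h1]
    apply Set.infinite_range_of_injective
    intro i j hij
    have hij' : (((b i + 3).factorial : ℕ) : ℤ) = (((b j + 3).factorial : ℕ) : ℤ) := hij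
    exact hbm.injective (hfac.injective (by exact_mod_cast hij'))
  · intro W hW hWB l
    obtain ⟨R, hR⟩ := exists_radius q W
    refine NP_mono le_rfl ?_ (hBN R l {y | ∃ x ∈ W, y = (q : ℤ) * x} ?_)
    · rintro n hn y ⟨a, ha, hay⟩ ⟨a', ha', hya⟩
      have hab : |y| ≤ R := by
        have h3 := abs_le.1 (hR a ha)
        have h4 := abs_le.1 (hR a' ha')
        rw [abs_le]
        constructor <;> linarith [h3.1, h4.2]
      exact hn y hab
    · rintro y ⟨x, hx, rfl⟩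
      obtain ⟨i, rfl⟩ := hWB (mem_coe.2 hx)
      exact hbB i

end Pool.Agent.Run7.h783.GE
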