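import Mathlib
import Pool.Agent.Run7.h783.GE.Win
import Pool.Agent.Run7.h783.GE.Abs
import Pool.Agent.Run7.h614.NP.Fam
import Pool.Agent.Run7.h614.NP.Her
import Pool.Agent.Y291.NP.BLK
import Pool.Agent.Y520.NP.BM
import Pool.Agent.Y960.NP.Nar
import Pool.Agent.Y677.RSZ.Top

set_option autoImplicit false

/-!
All multiples of `N`, `2 N` or `3 N` in one sequence whose windows are blocks of consecutive primes along narrow
progressions.
-/

namespace Pool.Agent.Run7.h783.GE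

open Finset Filter
open Pool.Agent.Run7.h783.OneSeq

theorem herN : HerN := by
  intro A hA
  obtain ⟨B, hBA, hB, γ, h⟩ := Pool.Agent.Run7.h614.NP.hereditary_unif
    (Pool.Agent.Y520.NP.bm (Pool.Agent.Y291.NP.blk Pool.Agent.Run7.h614.NP.famb)
      (Pool.Agent.Y960.NP.nar Pool.Agent.Y677.RSZ.eng_all)) (fun _ => ()) A hA
  refine ⟨B, hBA, hB, fun R l I hI => ?_⟩
  obtain ⟨C, hC⟩ := h R l
  refine ⟨C, fun n₀ => ?_⟩
  obtain ⟨n, d, h1, h2, h3, h4⟩ := hC I hI n₀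
  exact ⟨n, d, h1, h2, h3, fun j hj y hy => (h4 j hj y hy).1⟩

theorem colX_PN (q : ℕ) (hq : 1 ≤ q) : ColX q (PN q) := by
  refine ⟨2 / 5, by norm_num, by norm_num, fun T M hT hTM => ?_⟩
  obtain ⟨K, hK, hNE⟩ := narE T M hT (by linarith)
  refine ⟨K, hK, fun x hx hloc => ?_⟩
  obtain ⟨X, h1, h2, h3⟩ := exact_all T K M hNE q 1 hq isCoprime_one_left x hx hloc
  exact ⟨X, h1, h2, fun s _ hs => pn_of_exact q hq X h3 s hs⟩

/-- **Blocks of consecutive primes along narrow progressions, in one sequence.** -/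
theorem final_exact (N : ℕ) (hN : 0 < N) (hN2 : Even N) :
    ∃ d : ℕ, 1 ≤ d ∧ d ≤ 3 ∧ ∃ x : ℕ → ℤ, Function.Injective x ∧
      Set.range x = {y | ((d * N : ℕ) : ℤ) ∣ y} ∧
      ∀ k : ℕ, 1 ≤ k → ∃ i₀ : ℕ, ∀ i ≥ i₀, ∀ l : ℕ, ∃ C : ℕ, ∀ n₀ : ℕ, ∃ n D : ℕ, n₀ ≤ n ∧ 1 ≤ D ∧
        (D : ℝ) ≤ Real.log n ^ C ∧ ∀ t < l,
          (∀ j < k, ∃ p : ℕ, p.Prime ∧ (p : ℤ) = ((n + t * D : ℕ) : ℤ) + x (i + j)) ∧
          ∀ p : ℕ, p.Prime → (∃ j < k, ((n + t * D : ℕ) : ℤ) + x (i + j) ≤ p) →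
            (∃ j < k, (p : ℤ) ≤ ((n + t * D : ℕ) : ℤ) + x (i + j)) →
            ∃ j < k, (p : ℤ) = ((n + t * D : ℕ) : ℤ) + x (i + j) := by
  obtain ⟨b, hb, hB⟩ := exists_cliqueN herN N hN
  obtain ⟨d, hd1, hd3, x, hx1, hx2, hx3⟩ := main_seq (trInv_PN N) N (colX_PN N hN) hN2.two_dvd b hb hB
  have hN0 : (N : ℤ) ≠ 0 := by exact_mod_cast hN.ne'
  refine ⟨d, hd1, hd3, fun i => N * x i, fun i j h => hx1 (mul_left_cancel₀ hN0 h), ?_, ?_⟩
  · ext y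
    constructor
    · rintro ⟨i, rfl⟩
      have h1 : x i ∈ Set.range x := ⟨i, rfl⟩
      rw [hx2] at h1
      obtain ⟨m, hm⟩ := h1
      refine ⟨m, ?_⟩
      simp only [hm]
      push_cast
      ring
    · rintro ⟨m, hm⟩
      have h1 : (d : ℤ) * m ∈ Set.range x := by
        rw [hx2]; exact dvd_mul_right _ _
      obtain ⟨i, hi⟩ := h1
      refine ⟨i, ?_⟩
      simp only [hi, hm]
      push_cast
      ring
  · intro k hk
    obtain ⟨i₀, hi₀⟩ := hx3 k hk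
    refine ⟨i₀, fun i hi l => ?_⟩
    have hl : ∀ j < k, x (i + j) ∈ (Finset.range k).image fun j => x (i + j) := fun j hj =>
      mem_image.2 ⟨j, mem_range.2 hj, rfl⟩
    obtain ⟨C, hC⟩ := hi₀ i hi l
    refine ⟨C, fun n₀ => ?_⟩
    obtain ⟨n, D, h1, h2, h3, h4⟩ := hC n₀
    refine ⟨n, D, h1, h2, h3, fun t ht => ?_⟩
    have hw := h4 t ht
    constructor
    · intro j hj
      have h5 := (hw (N * x (i + j)) ⟨_, hl j hj, le_rfl⟩ ⟨_, hl j hj, le_rfl⟩).2 ⟨_, hl j hj, rfl⟩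
      refine ⟨_, h5, ?_⟩
      apply Int.toNat_of_nonneg
      by_contra hneg
      rw [Int.toNat_of_nonpos (by linarith)] at h5
      exact Nat.not_prime_zero h5
    · rintro p hp ⟨j, hj, hjp⟩ ⟨j', hj', hjp'⟩
      have h5 := (hw ((p : ℤ) - ((n + t * D : ℕ) : ℤ)) ⟨_, hl j hj, by linarith⟩
        ⟨_, hl j' hj', by linarith⟩).1 (by
          rw [add_sub_cancel, Int.toNat_natCast]
          exact hp)
      obtain ⟨w, hw1, hw2⟩ := h5
      obtain ⟨j'', hj'', rfl⟩ := mem_image.1 hw1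
      exact ⟨j'', mem_range.1 hj'', by linarith⟩

end Pool.Agent.Run7.h783.GE
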